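import Mathlib

/-!
# MP_2eb2b4: L-hitting numbers of initial segments of the 2-3 grid

For `n = 45` the L-hitting number satisfies `f_45 ≤ 14`, while `h_45 = 15`.
-/

namespace Pool.Agent.Results.MP_2eb2b4_co.FortyFive

/-- Membership in `A = {2^i 3^j}`. -/
def InA (x : ℕ) : Prop := ∃ i j : ℕ, x = 2 ^ i * 3 ^ j

/-- `A_n`: the `n` smallest elements of `A` (`Nat.nth` counts from `0`). -/
noncomputable def A (n : ℕ) : Finset ℕ := (Finset.range n).image (Nat.nth InA)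

/-- `H ⊆ A_n` meets every L-configuration `{x, 2x, 3x} ⊆ A_n`. -/
def Hits (n : ℕ) (H : Finset ℕ) : Prop :=
  H ⊆ A n ∧ ∀ x, x ∈ A n → 2 * x ∈ A n → 3 * x ∈ A n → x ∈ H ∨ 2 * x ∈ H ∨ 3 * x ∈ H

/-- The L-hitting number `f_n`. -/
noncomputable def f (n : ℕ) : ℕ := sInf {k | ∃ H, Hits n H ∧ H.card = k}

open Classical in
/-- `B_{n,k} = {2^i 3^j ∈ A_n : i - j ≡ k (mod 3)}`. -/
noncomputable def B (n k : ℕ) : Finset ℕ :=
  (A n).filter fun x => ∃ i j : ℕ, x = 2 ^ i * 3 ^ j ∧ i ≡ j + k [MOD 3]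

open Classical in
/-- the powers of two `2^i ∈ A_n` with `i ≥ 1`, `i ≡ k (mod 3)` and `2^(i-1) 3 ∉ A_n`. -/
noncomputable def Bt (n k : ℕ) : Finset ℕ :=
  (A n).filter fun x => ∃ i : ℕ, 1 ≤ i ∧ x = 2 ^ i ∧ i ≡ k [MOD 3] ∧ 2 ^ (i - 1) * 3 ∉ A n

/-- `h_n`. -/
noncomputable def h (n : ℕ) : ℕ :=
  min ((B n 0).card - (Bt n 0).card)
    (min ((B n 1).card - (Bt n 1).card) ((B n 2).card - (Bt n 2).card))

/-- the 45 smallest elements -/
def E : Finset ℕ := {1, 2, 3, 4, 6, 8, 9, 12, 16, 18, 24, 27, 32, 36, 48, 54, 64, 72, 81, 96, 108,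
  128, 144, 162, 192, 216, 243, 256, 288, 324, 384, 432, 486, 512, 576, 648, 729, 768, 864, 972,
  1024, 1152, 1296, 1458, 1536}

theorem InA_bound {i j : ℕ} (h : 2 ^ i * 3 ^ j < 1537) : i < 11 ∧ j < 7 := by
  constructor
  · by_contra hi
    push Not at hi
    have h1 : 2 ^ 11 ≤ 2 ^ i := Nat.pow_le_pow_right (by norm_num) hi
    have h2 : 1 ≤ 3 ^ j := Nat.one_le_pow _ _ (by norm_num)
    nlinarith
  · by_contra hj
    push Not at hj
    have h1 : 3 ^ 7 ≤ 3 ^ j := Nat.pow_le_pow_right (by norm_num) hj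
    have h2 : 1 ≤ 2 ^ i := Nat.one_le_pow _ _ (by norm_num)
    nlinarith

theorem E_fwd : ∀ i < 11, ∀ j < 7, 2 ^ i * 3 ^ j < 1537 → 2 ^ i * 3 ^ j ∈ E := by decide +kernel

theorem E_bwd : ∀ x ∈ E, ∃ i < 11, ∃ j < 7, x = 2 ^ i * 3 ^ j := by decide +kernel

theorem E_lt : ∀ x ∈ E, x < 1537 := by decide +kernel

theorem mem_E (x : ℕ) : x ∈ E ↔ InA x ∧ x < 1537 := by
  constructor
  · intro hx
    obtain ⟨i, _, j, _, rfl⟩ := E_bwd x hx
    exact ⟨⟨i, j, rfl⟩, E_lt _ hx⟩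
  · rintro ⟨⟨i, j, rfl⟩, hx⟩
    obtain ⟨hi, hj⟩ := InA_bound hx
    exact E_fwd i hi j hj hx

theorem infinite_A : {x | InA x}.Infinite := by
  apply Set.infinite_of_injective_forall_mem (f := fun i : ℕ => 2 ^ i)
  · exact Nat.pow_right_injective (le_refl 2)
  · intro i
    exact ⟨i, 0, by simp⟩

open Classical in
theorem count_eq : Nat.count InA 1537 = 45 := by
  rw [Nat.count_eq_card_filter_range]
  have : (Finset.range 1537).filter InA = E := by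
    ext x
    rw [Finset.mem_filter, Finset.mem_range, mem_E]
    exact and_comm
  rw [this]
  rfl

open Classical in
theorem A_eq : A 45 = E := by
  ext x
  rw [mem_E]
  unfold A
  rw [Finset.mem_image]
  constructor
  · rintro ⟨k, hk, rfl⟩
    rw [Finset.mem_range, ← count_eq] at hk
    exact ⟨Nat.nth_mem_of_infinite infinite_A k, Nat.nth_lt_of_lt_count hk⟩
  · rintro ⟨h1, h2⟩
    refine ⟨Nat.count InA x, ?_, Nat.nth_count h1⟩
    rw [Finset.mem_range, ← count_eq]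
    exact Nat.count_strict_mono h1 h2

/-- a hitting set with 14 elements -/
def H : Finset ℕ := {3, 4, 18, 24, 32, 81, 108, 144, 192, 384, 486, 512, 648, 864}

theorem H_hits : Hits 45 H := by
  unfold Hits
  rw [A_eq]
  refine ⟨by decide +kernel, ?_⟩
  have : ∀ x ∈ E, 2 * x ∈ E → 3 * x ∈ E → x ∈ H ∨ 2 * x ∈ H ∨ 3 * x ∈ H := by decide +kernel
  exact this

theorem f_le : f 45 ≤ 14 := Nat.sInf_le ⟨H, H_hits, rfl⟩

open Classical in
theorem B_card (k : ℕ) (S : Finset ℕ)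
    (hS : ∀ i < 11, ∀ j < 7, 2 ^ i * 3 ^ j < 1537 → (2 ^ i * 3 ^ j ∈ S ↔ i % 3 = (j + k) % 3))
    (hS2 : S ⊆ E) : B 45 k = S := by
  ext x
  unfold B
  rw [Finset.mem_filter, A_eq]
  constructor
  · rintro ⟨hx, i, j, rfl, hij⟩
    obtain ⟨hi, hj⟩ := InA_bound (E_lt _ hx)
    exact (hS i hi j hj (E_lt _ hx)).2 hij
  · intro hx
    have hE := hS2 hx
    obtain ⟨i, hi, j, hj, rfl⟩ := E_bwd x hE
    exact ⟨hE, i, j, rfl, (hS i hi j hj (E_lt _ hE)).1 hx⟩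

open Classical in
theorem Bt_card (k : ℕ) : Bt 45 k = ∅ := by
  unfold Bt
  rw [Finset.filter_eq_empty_iff]
  rintro x hx ⟨i, hi, rfl, _, hn⟩
  rw [A_eq] at hx hn
  have hlt := E_lt _ hx
  have hi2 : i < 11 := (InA_bound (i := i) (j := 0) (by simpa using hlt)).1
  interval_cases i <;> exact hn (by decide)

/-- `B_{45,0}` -/
def B0 : Finset ℕ := {1, 6, 8, 27, 36, 48, 64, 162, 216, 288, 384, 512, 729, 972, 1296}
/-- `B_{45,1}` -/
def B1 : Finset ℕ := {2, 9, 12, 16, 54, 72, 96, 128, 243, 324, 432, 576, 768, 1024, 1458}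
/-- `B_{45,2}` -/
def B2 : Finset ℕ := {3, 4, 18, 24, 32, 81, 108, 144, 192, 256, 486, 648, 864, 1152, 1536}

theorem h_eq : h 45 = 15 := by
  unfold h
  rw [Bt_card, Bt_card, Bt_card, B_card 0 B0 (by decide +kernel) (by decide +kernel),
    B_card 1 B1 (by decide +kernel) (by decide +kernel),
    B_card 2 B2 (by decide +kernel) (by decide +kernel)]
  rfl

/-- **Q1 is false**: `f_45 ≤ 14 < 15 = h_45`. -/
theorem result : f 45 ≤ 14 ∧ h 45 = 15 ∧ f 45 < h 45 ∧ ¬ ∀ n : ℕ, 1 ≤ n → f n = h n := by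
  have h1 := f_le
  have h2 := h_eq
  refine ⟨h1, h2, by omega, fun hall => ?_⟩
  have := hall 45 (by norm_num)
  omega

end Pool.Agent.Results.MP_2eb2b4_co.FortyFive
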